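import Pool.Agent.Lib.helper15.Hilb2

set_option autoImplicit false

namespace Pool.Agent.Results.MP_df1f63_gt.Ellipse

/-- `I = x - S (y - x)` is the end of the chord behind `x`. -/
noncomputable def back (K : Set (ℝ × ℝ)) (x y : ℝ × ℝ) : ℝ :=
  sSup {s : ℝ | 0 ≤ s ∧ x - s • (y - x) ∈ K}

/-- `J = x + T (y - x)` is the end of the chord beyond `y`. -/
noncomputable def front (K : Set (ℝ × ℝ)) (x y : ℝ × ℝ) : ℝ :=
  sSup {t : ℝ | 0 ≤ t ∧ x + t • (y - x) ∈ K}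

/-- The Hilbert distance: `|Iy| / |Ix| = (1 + S) / S` and `|xJ| / |yJ| = T / (T - 1)`.
For `x = y` in `K` both suprema are `0` and the value is `0`. -/
noncomputable def hdist (K : Set (ℝ × ℝ)) (x y : ℝ × ℝ) : ℝ :=
  (1 / 2) * Real.log (((1 + back K x y) * front K x y) / (back K x y * (front K x y - 1)))

/-- The chord of `ℓ` is perpendicular to the chord of `m`. -/
def Perp (K : Set (ℝ × ℝ)) (ℓ m : AffineSubspace ℝ (ℝ × ℝ)) : Prop :=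
  ∃ F ∈ K, F ∈ ℓ ∧ F ∈ m ∧ ∀ X ∈ K, X ∈ ℓ → ∀ Y ∈ K, Y ∈ m → hdist K X F ≤ hdist K X Y

/-- `m` is a reverse altitude from `a` to the side line `b c`. -/
def RevAlt (K : Set (ℝ × ℝ)) (a b c : ℝ × ℝ) (m : AffineSubspace ℝ (ℝ × ℝ)) : Prop :=
  Module.finrank ℝ m.direction = 1 ∧ a ∈ m ∧ Perp K (affineSpan ℝ {b, c}) m

/-- Three lines through one point of the projective plane. -/
def Pencil (l₁ l₂ l₃ : AffineSubspace ℝ (ℝ × ℝ)) : Prop :=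
  (∃ p, p ∈ l₁ ∧ p ∈ l₂ ∧ p ∈ l₃) ∨ (l₁.direction = l₂.direction ∧ l₂.direction = l₃.direction)

open Pool.Agent.Lib.helper15.Hilb

theorem result (K : Set (ℝ × ℝ)) (ho : IsOpen K) (hc : Convex ℝ K) (hb : Bornology.IsBounded K)
    (hne : K.Nonempty)
    (H : (∀ a ∈ K, ∀ b ∈ K, ∀ c ∈ K, ¬ Collinear ℝ {a, b, c} →
        ∃ l₁ l₂ l₃, RevAlt K c a b l₁ ∧ RevAlt K a b c l₂ ∧ RevAlt K b c a l₃ ∧ Pencil l₁ l₂ l₃) ∨
      (∀ a ∈ K, ∀ b ∈ K, ∀ c ∈ K, ¬ Collinear ℝ {a, b, c} →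
        ∀ l₁ l₂ l₃, RevAlt K c a b l₁ → RevAlt K a b c l₂ → RevAlt K b c a l₃ → Pencil l₁ l₂ l₃)) :
    ∃ f : (ℝ × ℝ) ≃ᵃ[ℝ] (ℝ × ℝ), K = f '' {p : ℝ × ℝ | p.1 ^ 2 + p.2 ^ 2 < 1} := by
  obtain ⟨O, hO⟩ := hne
  obtain ⟨hG, hK⟩ := gg_of ((fun v => O + v) ⁻¹' K) (ho.preimage (by fun_prop))
    (hc.translate_preimage_right O) ((isometry_add_left O).antilipschitz.isBounded_preimage hb)
    (by simpa using hO)
  set G := gauge ((fun v => O + v) ⁻¹' K)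
  simp only [Set.mem_preimage] at hK
  have ed : ∀ x y, hdist K (O + x) (O + y) = hd G x y := fun x y => by
    rw [hdist, back, front, add_sub_add_left_eq_sub]
    simp only [hd, ← hK, add_sub_assoc, add_assoc]
  have el : ∀ a b (s : ℝ), AffineMap.lineMap (O + a) (O + b) s = O + (a + s • (b - a)) :=
    fun a b s => by simp [AffineMap.lineMap_apply]; abel
  have ex : ∀ a b c, G a < 1 → G b < 1 → G c < 1 → a ≠ b →
      ∃ ℓ, RevAlt K (O + c) (O + a) (O + b) ℓ := by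
    intro a b c ha hb hc hab
    obtain ⟨φ, ψ, h⟩ := hG.exists_ch ha hb hab
    obtain ⟨_, -, _, -, h1, h2⟩ := id h
    have p1 := l_pos' h1.1 hc
    have p2 := l_pos' h2.1 hc
    obtain ⟨f0, t, t1, t2, t3, -⟩ := hG.foot h ha hb (div_pos p1 p2)
    obtain ⟨ℓ, l1, l2, l3⟩ := line_ex O _ f0 t2
    refine ⟨ℓ, l1, (l2 _).2 (by rw [ev_co]; field_simp; ring), O + (a + t • (b - a)), (hK _).2 t1,
      mem_affineSpan_pair_iff_exists_lineMap_eq.2 ⟨t, el _ _ _⟩, (l2 _).2 t2,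
      fun x hx' hx z hz' hz => ?_⟩
    obtain ⟨s, rfl⟩ := mem_affineSpan_pair_iff_exists_lineMap_eq.1 hx
    rw [el] at hx' ⊢
    rw [← add_sub_cancel O z] at hz hz' ⊢
    rw [ed, ed]
    exact t3 s ((hK _).1 hx') _ ((hK _).1 hz') ((l2 _).1 hz)
  have key : ∀ a b c ℓ, G a < 1 → G b < 1 → G c < 1 → a ≠ b → RevAlt K (O + c) (O + a) (O + b) ℓ →
      ∃ φ ψ, Ch G a b φ ψ ∧ (∀ p, O + p ∈ ℓ → ev (co φ ψ (l φ c / l ψ c)) p = 0) ∧
        ∀ v ∈ ℓ.direction, ip (co φ ψ (l φ c / l ψ c)).2 v = 0 := by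
    rintro a b c ℓ ha hb hc hab ⟨h1, h2, F, f1, f2, f3, f4⟩
    obtain ⟨t, rfl⟩ := mem_affineSpan_pair_iff_exists_lineMap_eq.1 f2
    rw [el] at f1 f3 f4
    refine hG.rev4 O ha hb hc hab h1 h2 ((hK _).1 f1) f3 fun x hx z hz hz' => ?_
    rw [← ed, ← ed]
    rcases hx with rfl | rfl
    · exact f4 _ ((hK _).2 ha) (left_mem_affineSpan_pair _ _ _) _ ((hK _).2 hz') hz
    · exact f4 _ ((hK _).2 hb) (right_mem_affineSpan_pair _ _ _) _ ((hK _).2 hz') hz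
  obtain ⟨f, hf⟩ := hG.ellipse (hG.seg_alt fun a b c ha hb hc hn => by
    have ab : a ≠ b := by rintro rfl; exact hn (by simpa using collinear_pair ℝ a c)
    have bc : b ≠ c := by rintro rfl; exact hn (by simpa using collinear_pair ℝ a b)
    have ca : c ≠ a := by
      rintro rfl; exact hn (by simpa [Set.insert_comm c b] using collinear_pair ℝ b c)
    have hn' : ¬ Collinear ℝ {O + a, O + b, O + c} := fun h => hn (by
      obtain ⟨v, hv⟩ := (collinear_iff_of_mem (p₀ := O + a) (by simp)).1 h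
      refine (collinear_iff_of_mem (p₀ := a) (by simp)).2 ⟨v, fun p hp => ?_⟩
      obtain ⟨r, hr⟩ := hv (O + p) (by simpa using hp)
      exact ⟨r, add_left_cancel (a := O) (by rw [hr]; simp [add_left_comm])⟩)
    obtain ⟨l₁, l₂, l₃, r1, r2, r3, hp⟩ : ∃ l₁ l₂ l₃, RevAlt K (O + c) (O + a) (O + b) l₁ ∧
        RevAlt K (O + a) (O + b) (O + c) l₂ ∧ RevAlt K (O + b) (O + c) (O + a) l₃ ∧
        Pencil l₁ l₂ l₃ := by
      rcases H with H | H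
      · exact H _ ((hK _).2 ha) _ ((hK _).2 hb) _ ((hK _).2 hc) hn'
      · obtain ⟨l₁, r1⟩ := ex a b c ha hb hc ab
        obtain ⟨l₂, r2⟩ := ex b c a hb hc ha bc
        obtain ⟨l₃, r3⟩ := ex c a b hc ha hb ca
        exact ⟨l₁, l₂, l₃, r1, r2, r3,
          H _ ((hK _).2 ha) _ ((hK _).2 hb) _ ((hK _).2 hc) hn' _ _ _ r1 r2 r3⟩
    obtain ⟨φ1, ψ1, c1, h1⟩ := key _ _ _ _ ha hb hc ab r1
    obtain ⟨φ2, ψ2, c2, h2⟩ := key _ _ _ _ hb hc ha bc r2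
    obtain ⟨φ3, ψ3, c3, h3⟩ := key _ _ _ _ hc ha hb ca r3
    exact ⟨φ1, ψ1, φ2, ψ2, φ3, ψ3, c1, c2, c3, pencil_det' O r1.1 h1 h2 h3 hp⟩)
  refine ⟨f.trans (AffineEquiv.constVAdd ℝ _ O), Set.ext fun x => ⟨fun hx => ?_, ?_⟩⟩
  · refine ⟨f.symm (x - O), (hf _).1 ?_, by simp⟩
    rw [f.apply_symm_apply, ← hK]; simpa using hx
  · rintro ⟨p, hp, rfl⟩
    exact (hK _).2 ((hf p).2 hp)

end Pool.Agent.Results.MP_df1f63_gt.Ellipse
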